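import Mathlib

set_option autoImplicit false

namespace Pool.Agent.Results.MP_28939e_an.NoFixedOrdering

/-- The class `F_{μ,L}(E)` of differentiable, `L`-smooth, `μ`-strongly convex functions. -/
def ClassF (μ L : ℝ) (E : Type*) [NormedAddCommGroup E] [InnerProductSpace ℝ E]
    [CompleteSpace E] : Set (E → ℝ) :=
  {f | Differentiable ℝ f ∧ (∀ x y, ‖gradient f x - gradient f y‖ ≤ L * ‖x - y‖) ∧
    StrongConvexOn Set.univ μ f}

/-- `X` is a sequence of heavy-ball iterates on `f` with step size `γ` and momentum `β`. -/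
def IsHeavyBall {E : Type*} [NormedAddCommGroup E] [InnerProductSpace ℝ E] [CompleteSpace E]
    (γ β : ℝ) (f : E → ℝ) (X : ℕ → E) : Prop :=
  ∀ t : ℕ, 1 ≤ t → X (t + 1) = X t - γ • gradient f (X t) + β • (X t - X (t - 1))

/-- The periodic extension `t ↦ x_{t mod K}` of a tuple `(x_0, ..., x_{K-1})`. -/
def ext {E : Type*} {K : ℕ} (hK : 0 < K) (x : Fin K → E) (t : ℕ) : E :=
  x ⟨t % K, Nat.mod_lt t hK⟩

/-- `(x_0, ..., x_{K-1})` is a cycle of length `K` of the heavy-ball method with parameters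
`(γ, β)` on `F_{μ,L}(E)`: the points are not all equal, and for some `f` in the class the
heavy-ball sequence is `x_{t mod K}`. -/
def IsCycle (μ L γ β : ℝ) {E : Type*} [NormedAddCommGroup E] [InnerProductSpace ℝ E]
    [CompleteSpace E] {K : ℕ} (x : Fin K → E) : Prop :=
  (∃ i j, x i ≠ x j) ∧ ∃ f ∈ ClassF μ L E, ∃ hK : 0 < K, IsHeavyBall γ β f (ext hK x)

/-- The set `Ω` of tunings having a cycle of some length `K ≥ 3` in some dimension `d ≥ 1`. -/
def Omega (μ L : ℝ) : Set (ℝ × ℝ) :=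
  {p | ∃ d : ℕ, 1 ≤ d ∧ ∃ K : ℕ, 3 ≤ K ∧ ∃ x : Fin K → EuclideanSpace ℝ (Fin d),
    IsCycle μ L p.1 p.2 x}

/-- The permutation `σ_K`: `0, 1, 3, 5, ...` (odd numbers increasing), then the even numbers
`≥ 2` decreasing. -/
def sigma (K t : ℕ) : ℕ := if t ≤ K / 2 then 2 * t - 1 else 2 * (K - t)

/-- `x_i ≤ x_j` whenever `σ_K(i) < σ_K(j)`. -/
def IsSigmaOrdered {K : ℕ} (x : Fin K → ℝ) : Prop :=
  ∀ i j : Fin K, sigma K i < sigma K j → x i ≤ x j

/-! ### One-dimensional functions -/

lemma grad_mono {μ L : ℝ} {f : ℝ → ℝ} (hf : f ∈ ClassF μ L ℝ) (x y : ℝ) (h : y ≤ x) :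
    μ * (x - y) ≤ gradient f x - gradient f y := by
  obtain ⟨hd, -, hs⟩ := hf
  rw [strongConvexOn_iff_convex] at hs
  have hd2 : ∀ z : ℝ, HasDerivAt (fun x => f x - μ / 2 * ‖x‖ ^ 2) (deriv f z - μ * z) z := by
    intro z
    have h1 := (hd z).hasDerivAt
    have h2 : HasDerivAt (fun x : ℝ => μ / 2 * ‖x‖ ^ 2) (μ * z) z := by
      have h3 : HasDerivAt (fun x : ℝ => μ / 2 * x ^ 2) (μ / 2 * (2 * z)) z := by
        simpa using (hasDerivAt_pow 2 z).const_mul (μ / 2)
      have h4 : (fun x : ℝ => μ / 2 * ‖x‖ ^ 2) = fun x : ℝ => μ / 2 * x ^ 2 := by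
        ext x; simp
      rw [h4]
      convert h3 using 1
      ring
    exact h1.sub h2
  have hm := hs.monotoneOn_deriv (fun z _ => (hd2 z).differentiableAt)
  have := hm (Set.mem_univ y) (Set.mem_univ x) h
  rw [(hd2 x).deriv, (hd2 y).deriv] at this
  rw [gradient_eq_deriv', gradient_eq_deriv']
  linarith

lemma grad_cont {μ L : ℝ} {f : ℝ → ℝ} (hf : f ∈ ClassF μ L ℝ) : Continuous (gradient f) := by
  have : LipschitzWith L.toNNReal (gradient f) := by
    apply LipschitzWith.of_dist_le_mul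
    intro x y
    rw [dist_eq_norm, dist_eq_norm]
    refine (hf.2.1 x y).trans ?_
    exact mul_le_mul_of_nonneg_right (Real.le_coe_toNNReal L) (norm_nonneg _)
  exact this.continuous

lemma exists_min {μ L : ℝ} (hμ : 0 < μ) {f : ℝ → ℝ} (hf : f ∈ ClassF μ L ℝ) :
    ∃ z, gradient f z = 0 := by
  set c := gradient f 0 with hc
  have hcμ : 0 ≤ |c| / μ := by positivity
  have h1 : gradient f (-(|c| / μ)) ≤ 0 := by
    have h := grad_mono hf 0 (-(|c| / μ)) (by linarith)
    have e : μ * (0 - -(|c| / μ)) = |c| := by field_simp; ring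
    rw [e] at h
    have := le_abs_self c
    linarith
  have h2 : 0 ≤ gradient f (|c| / μ) := by
    have h := grad_mono hf (|c| / μ) 0 (by positivity)
    have e : μ * (|c| / μ - 0) = |c| := by field_simp; ring
    rw [e] at h
    have := neg_abs_le c
    linarith
  have hle : -(|c| / μ) ≤ |c| / μ := by linarith
  obtain ⟨z, -, hz⟩ := intermediate_value_Icc hle (grad_cont hf).continuousOn ⟨h1, h2⟩
  exact ⟨z, hz⟩

/-- Interpolation in dimension one. -/
lemma interp {ι : Type*} [Fintype ι] [Nonempty ι] {μ L : ℝ} (hμ : 0 < μ) (hL : μ ≤ L)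
    (y g : ι → ℝ) (h : ∀ i j, y j ≤ y i → μ * (y i - y j) ≤ g i - g j ∧
      g i - g j ≤ L * (y i - y j)) : ∃ f ∈ ClassF μ L ℝ, ∀ i, gradient f (y i) = g i := by
  classical
  set H : ι → ℝ → ℝ := fun i x => g i + max (μ * (x - y i)) (L * (x - y i)) with hH
  have hH1 : ∀ i x x', x' ≤ x → μ * (x - x') ≤ H i x - H i x' ∧ H i x - H i x' ≤ L * (x - x') := by
    intro i x x' hx
    have a1 : μ * (x - x') ≤ L * (x - x') := mul_le_mul_of_nonneg_right hL (by linarith)
    simp only [hH]
    rcases max_cases (μ * (x - y i)) (L * (x - y i)) with ⟨e1, h1⟩ | ⟨e1, h1⟩ <;>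
    rcases max_cases (μ * (x' - y i)) (L * (x' - y i)) with ⟨e2, h2⟩ | ⟨e2, h2⟩ <;>
    rw [e1, e2] <;> constructor <;> nlinarith
  set h0 : ℝ → ℝ := fun x => Finset.univ.inf' Finset.univ_nonempty (fun i => H i x) with hh0
  have hlow : ∀ x x', x' ≤ x → μ * (x - x') ≤ h0 x - h0 x' := by
    intro x x' hx
    have : h0 x' + μ * (x - x') ≤ h0 x := by
      apply Finset.le_inf'
      intro i hi
      have h1 : h0 x' ≤ H i x' := Finset.inf'_le _ hi
      have h2 := (hH1 i x x' hx).1
      linarith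
    linarith
  have hup : ∀ x x', x' ≤ x → h0 x - h0 x' ≤ L * (x - x') := by
    intro x x' hx
    obtain ⟨i, hi, e⟩ := Finset.exists_mem_eq_inf' (Finset.univ_nonempty (α := ι))
      (fun i => H i x')
    have h1 : h0 x ≤ H i x := Finset.inf'_le _ hi
    have h2 := (hH1 i x x' hx).2
    have h3 : h0 x' = H i x' := e
    linarith
  have hLpos : 0 ≤ L := hμ.le.trans hL
  have hlip : ∀ x x', |h0 x - h0 x'| ≤ L * |x - x'| := by
    intro x x'
    rcases le_total x' x with hx | hx
    · rw [abs_of_nonneg (sub_nonneg.mpr hx), abs_of_nonneg]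
      · exact hup x x' hx
      · exact (mul_nonneg hμ.le (sub_nonneg.mpr hx)).trans (hlow x x' hx)
    · rw [abs_sub_comm, abs_sub_comm x x', abs_of_nonneg (sub_nonneg.mpr hx), abs_of_nonneg]
      · exact hup x' x hx
      · exact (mul_nonneg hμ.le (sub_nonneg.mpr hx)).trans (hlow x' x hx)
  have hcont : Continuous h0 := by
    have : LipschitzWith L.toNNReal h0 := by
      apply LipschitzWith.of_dist_le_mul
      intro x y
      rw [Real.dist_eq, Real.dist_eq, Real.coe_toNNReal L hLpos]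
      exact hlip x y
    exact this.continuous
  have hval : ∀ i, h0 (y i) = g i := by
    intro i
    apply le_antisymm
    · have h1 : h0 (y i) ≤ H i (y i) := Finset.inf'_le _ (Finset.mem_univ i)
      simpa [hH] using h1
    · apply Finset.le_inf'
      intro j _
      simp only [hH]
      rcases le_total (y j) (y i) with hij | hij
      · have h1 := (h i j hij).2
        have h2 := le_max_right (μ * (y i - y j)) (L * (y i - y j))
        linarith
      · have h1 := (h j i hij).1
        have h2 := le_max_left (μ * (y i - y j)) (L * (y i - y j))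
        linarith
  set f : ℝ → ℝ := fun u => ∫ t in (0 : ℝ)..u, h0 t with hf
  have hder : ∀ u, HasDerivAt f (h0 u) u := fun u =>
    (hcont.integral_hasStrictDerivAt 0 u).hasDerivAt
  have hgrad : ∀ u, gradient f u = h0 u := fun u => by
    rw [gradient_eq_deriv', (hder u).deriv]
  refine ⟨f, ⟨fun u => (hder u).differentiableAt, ?_, ?_⟩, fun i => by rw [hgrad, hval]⟩
  · intro x y
    rw [hgrad, hgrad, Real.norm_eq_abs, Real.norm_eq_abs]
    exact hlip x y
  · rw [strongConvexOn_iff_convex]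
    have hd2 : ∀ z : ℝ, HasDerivAt (fun x => f x - μ / 2 * ‖x‖ ^ 2) (h0 z - μ * z) z := by
      intro z
      have h2 : HasDerivAt (fun x : ℝ => μ / 2 * ‖x‖ ^ 2) (μ * z) z := by
        have h3 : HasDerivAt (fun x : ℝ => μ / 2 * x ^ 2) (μ / 2 * (2 * z)) z := by
          simpa using (hasDerivAt_pow 2 z).const_mul (μ / 2)
        have h4 : (fun x : ℝ => μ / 2 * ‖x‖ ^ 2) = fun x : ℝ => μ / 2 * x ^ 2 := by
          ext x; simp
        rw [h4]
        convert h3 using 1
        ring
      exact (hder z).sub h2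
    apply Monotone.convexOn_univ_of_deriv
    · exact fun z => (hd2 z).differentiableAt
    · intro x y hxy
      rw [(hd2 x).deriv, (hd2 y).deriv]
      have := hlow y x hxy
      linarith

/-! ### Transfer to `EuclideanSpace ℝ (Fin 1)` -/

lemma norm_one (z : EuclideanSpace ℝ (Fin 1)) : ‖z‖ = |z 0| := by
  rw [EuclideanSpace.norm_eq]
  simp [Real.sqrt_sq_eq_abs]

lemma transfer_grad {f : ℝ → ℝ} (hd : Differentiable ℝ f) (z : EuclideanSpace ℝ (Fin 1)) :
    HasGradientAt (fun z : EuclideanSpace ℝ (Fin 1) => f (z 0))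
      (EuclideanSpace.single 0 (gradient f (z 0))) z := by
  rw [hasGradientAt_iff_hasFDerivAt, gradient_eq_deriv']
  have h1 : HasFDerivAt (fun z : EuclideanSpace ℝ (Fin 1) => z 0)
      (EuclideanSpace.proj (0 : Fin 1) : EuclideanSpace ℝ (Fin 1) →L[ℝ] ℝ) z :=
    (EuclideanSpace.proj (0 : Fin 1) : EuclideanSpace ℝ (Fin 1) →L[ℝ] ℝ).hasFDerivAt
  have h2 : HasDerivAt f (deriv f (z 0)) (z 0) := (hd (z 0)).hasDerivAt
  have h3 := h2.comp_hasFDerivAt z h1
  have e : (InnerProductSpace.toDual ℝ (EuclideanSpace ℝ (Fin 1)))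
      (EuclideanSpace.single 0 (deriv f (z 0))) =
      deriv f (z 0) • (EuclideanSpace.proj (0 : Fin 1) : EuclideanSpace ℝ (Fin 1) →L[ℝ] ℝ) := by
    apply ContinuousLinearMap.ext
    intro w
    rw [InnerProductSpace.toDual_apply_apply, EuclideanSpace.inner_single_left]
    simp
  rw [e]
  exact h3

lemma transfer {μ L : ℝ} {f : ℝ → ℝ} (hf : f ∈ ClassF μ L ℝ) :
    (fun z : EuclideanSpace ℝ (Fin 1) => f (z 0)) ∈ ClassF μ L (EuclideanSpace ℝ (Fin 1)) := by
  obtain ⟨hd, hl, hs⟩ := hf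
  refine ⟨fun z => (transfer_grad hd z).differentiableAt, ?_, ?_⟩
  · intro x y
    rw [(transfer_grad hd x).gradient, (transfer_grad hd y).gradient, norm_one, norm_one]
    have := hl (x 0) (y 0)
    rw [Real.norm_eq_abs, Real.norm_eq_abs] at this
    simpa using this
  · refine ⟨convex_univ, ?_⟩
    intro x _ y _ a b ha hb hab
    have := hs.2 (Set.mem_univ (x 0)) (Set.mem_univ (y 0)) ha hb hab
    rw [norm_one]
    rw [Real.norm_eq_abs] at this
    simpa using this

lemma cycle_transfer {μ L γ β : ℝ} {K : ℕ} {x : Fin K → ℝ} (h : IsCycle μ L γ β x) :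
    IsCycle μ L γ β (fun i => (EuclideanSpace.single (0 : Fin 1) (x i) :
      EuclideanSpace ℝ (Fin 1))) := by
  obtain ⟨⟨i, j, hij⟩, f, hf, hK, hb⟩ := h
  refine ⟨⟨i, j, fun h => hij ?_⟩, _, transfer hf, hK, ?_⟩
  · have := congrArg (fun z : EuclideanSpace ℝ (Fin 1) => z 0) h
    simpa using this
  · intro t ht
    have h1 := hb t ht
    rw [(transfer_grad hf.1 _).gradient]
    simp only [ext] at h1 ⊢
    ext k
    fin_cases k
    simpa using h1

/-! ### The cycle of length five -/

open Real in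
/-- the five points of the cycle -/
noncomputable def pts : Fin 5 → ℝ := ![0, 1, -goldenRatio, goldenRatio, -1]

open Real in
lemma phi_bounds : goldenRatio ^ 2 = goldenRatio + 1 ∧ 8 / 5 < goldenRatio ∧ goldenRatio < 2 := by
  refine ⟨goldenRatio_sq, ?_, goldenRatio_lt_two⟩
  have h := goldenRatio_sq
  have h0 := one_lt_goldenRatio
  nlinarith

open Real in
lemma cycle_five {μ L γ β : ℝ} (hμ : 0 < μ) (hL : μ ≤ L) (hγ : 0 < γ) (hβ1 : β ≤ 1)
    (h1 : γ * μ ≤ (2 + goldenRatio) * β) (h2 : 2 + goldenRatio ≤ γ * L) :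
    IsCycle μ L γ β pts := by
  obtain ⟨hφ, hφ1, hφ2⟩ := phi_bounds
  set φ := goldenRatio with hφdef
  set G : Fin 5 → ℝ := ![β - 1, 1 + β + φ, -φ * (2 + β) - β, φ * (1 + 2 * β) + 1,
    -(1 + β + β * φ)] with hG
  have hp : pts = ![0, 1, -φ, φ, -1] := rfl
  have key : ∀ i j, pts j ≤ pts i → (2 + φ) * β * (pts i - pts j) ≤ G i - G j ∧
      G i - G j ≤ (2 + φ) * (pts i - pts j) := by
    have q1 : 0 ≤ (1 - β) * (φ - 1) := mul_nonneg (by linarith) (by linarith)
    have q2 : 0 ≤ (1 - β) * (2 + φ) := mul_nonneg (by linarith) (by linarith)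
    have q3 : 0 ≤ (1 - β) * ((2 + φ) * (φ - 1)) :=
      mul_nonneg (by linarith) (mul_nonneg (by linarith) (by linarith))
    have q4 : β * φ ^ 2 = β * φ + β := by rw [hφ]; ring
    intro i j hij
    rw [hp] at hij ⊢
    fin_cases i <;> fin_cases j <;> simp [hG] at hij ⊢ <;>
    first
      | (exfalso; linarith)
      | (constructor <;> nlinarith)
  obtain ⟨f, hf, hfg⟩ := interp (ι := Fin 5) hμ hL pts (fun i => G i / γ) (by
    intro i j hij
    obtain ⟨k1, k2⟩ := key i j hij
    have hd : 0 ≤ pts i - pts j := by linarith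
    rw [← sub_div, le_div_iff₀ hγ, div_le_iff₀ hγ]
    constructor
    · calc μ * (pts i - pts j) * γ = γ * μ * (pts i - pts j) := by ring
        _ ≤ (2 + φ) * β * (pts i - pts j) := mul_le_mul_of_nonneg_right h1 hd
        _ ≤ _ := k1
    · calc G i - G j ≤ (2 + φ) * (pts i - pts j) := k2
        _ ≤ γ * L * (pts i - pts j) := mul_le_mul_of_nonneg_right h2 hd
        _ = L * (pts i - pts j) * γ := by ring)
  refine ⟨⟨0, 1, by simp [pts]⟩, f, hf, by norm_num, ?_⟩
  -- the heavy-ball recursion at all times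
  have hrec : ∀ i : Fin 5, pts (i + 1) = pts i - G i + β * (pts i - pts (i - 1)) := by
    intro i
    have q4 : β * φ ^ 2 = β * φ + β := by rw [hφ]; ring
    rw [hp]
    fin_cases i
    · show (1 : ℝ) = 0 - (β - 1) + β * (0 - (-1))
      ring
    · show (-φ : ℝ) = 1 - (1 + β + φ) + β * (1 - 0)
      ring
    · show (φ : ℝ) = -φ - (-φ * (2 + β) - β) + β * (-φ - 1)
      ring
    · show (-1 : ℝ) = φ - (φ * (1 + 2 * β) + 1) + β * (φ - -φ)
      ring
    · show (0 : ℝ) = -1 - (-(1 + β + β * φ)) + β * (-1 - φ)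
      ring
  intro t ht
  have hsub : ∀ (n : ℕ) (hn : n % 5 < 5), ext (by norm_num : 0 < 5) pts n = pts ⟨n % 5, hn⟩ :=
    fun n hn => rfl
  have hi : (⟨(t + 1) % 5, Nat.mod_lt _ (by norm_num)⟩ : Fin 5) =
      ⟨t % 5, Nat.mod_lt _ (by norm_num)⟩ + 1 := by
    apply Fin.ext
    rw [Fin.val_add]
    simp [Nat.add_mod]
  have hj : (⟨(t - 1) % 5, Nat.mod_lt _ (by norm_num)⟩ : Fin 5) =
      ⟨t % 5, Nat.mod_lt _ (by norm_num)⟩ - 1 := by
    obtain ⟨s, rfl⟩ := Nat.exists_eq_add_of_le' ht
    have e : (⟨(s + 1) % 5, Nat.mod_lt _ (by norm_num)⟩ : Fin 5) =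
      ⟨s % 5, Nat.mod_lt _ (by norm_num)⟩ + 1 := by
      apply Fin.ext
      rw [Fin.val_add]
      simp [Nat.add_mod]
    rw [e, add_sub_cancel_right]
    rfl
  rw [hsub (t + 1) (Nat.mod_lt _ (by norm_num)), hsub t (Nat.mod_lt _ (by norm_num)),
    hsub (t - 1) (Nat.mod_lt _ (by norm_num)), hi, hj, hfg, hrec]
  simp only [smul_eq_mul]
  field_simp

/-! ### No ordered cycles -/

lemma ext_add {K : ℕ} {E : Type*} (hK : 0 < K) (x : Fin K → E) (t : ℕ) :
    ext hK x (t + K) = ext hK x t := by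
  simp [ext]

lemma ext_of_lt {K : ℕ} {E : Type*} (hK : 0 < K) (x : Fin K → E) (t : ℕ) (ht : t < K) :
    ext hK x t = x ⟨t, ht⟩ := by
  simp [ext, Nat.mod_eq_of_lt ht]

lemma no_ordered {μ L γ β : ℝ} (hμ : 0 < μ) (hγ : 0 < γ) (hβ0 : 0 < β) (hβ1 : β ≤ 1)
    (hm : 1 + β + 21 / 20 ≤ γ * μ) {K : ℕ} (hK3 : 3 ≤ K) {x : Fin K → ℝ}
    (hx : IsCycle μ L γ β x) : ¬ IsSigmaOrdered x := by
  intro hord
  obtain ⟨⟨i0, j0, hne⟩, f, hf, hK, hb⟩ := hx
  obtain ⟨z, hz⟩ := exists_min hμ hf
  set u : ℕ → ℝ := fun t => ext hK x t - z with hu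
  -- the two key inequalities
  have hpos : ∀ t, 1 ≤ t → 0 ≤ u t → u (t + 1) + 21 / 20 * u t + β * u (t - 1) ≤ 0 := by
    intro t ht h0
    have h1 := hb t ht
    have h2 := grad_mono hf (ext hK x t) z (by simp only [hu] at h0; linarith)
    rw [hz, sub_zero] at h2
    simp only [smul_eq_mul] at h1
    have h3 : (1 + β + 21 / 20) * (ext hK x t - z) ≤ γ * μ * (ext hK x t - z) :=
      mul_le_mul_of_nonneg_right hm h0
    have h4 : γ * (μ * (ext hK x t - z)) ≤ γ * gradient f (ext hK x t) :=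
      mul_le_mul_of_nonneg_left h2 hγ.le
    simp only [hu]
    linarith
  have hneg : ∀ t, 1 ≤ t → u t ≤ 0 → 0 ≤ u (t + 1) + 21 / 20 * u t + β * u (t - 1) := by
    intro t ht h0
    have h1 := hb t ht
    have h2 := grad_mono hf z (ext hK x t) (by simp only [hu] at h0; linarith)
    rw [hz, zero_sub] at h2
    simp only [smul_eq_mul] at h1
    have h3 : (1 + β + 21 / 20) * (z - ext hK x t) ≤ γ * μ * (z - ext hK x t) :=
      mul_le_mul_of_nonneg_right hm (by simp only [hu] at h0; linarith)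
    have h4 : γ * (μ * (z - ext hK x t)) ≤ γ * (-gradient f (ext hK x t)) :=
      mul_le_mul_of_nonneg_left h2 hγ.le
    simp only [hu]
    linarith
  have hper : ∀ t, u (t + K) = u t := fun t => by simp only [hu, ext_add]
  -- two consecutive zeros are impossible
  have hzero : ∀ t, u t = 0 → u (t + 1) = 0 → False := by
    intro t h0 h1
    have hall : ∀ n, u (t + n) = 0 ∧ u (t + n + 1) = 0 := by
      intro n
      induction n with
      | zero => exact ⟨h0, h1⟩
      | succ n ih =>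
        obtain ⟨a, b⟩ := ih
        refine ⟨b, ?_⟩
        have c := hb (t + n + 1) (by omega)
        have a' : ext hK x (t + n) = z := by simp only [hu] at a; linarith
        have b' : ext hK x (t + n + 1) = z := by simp only [hu] at b; linarith
        rw [b', hz, Nat.add_sub_cancel, a'] at c
        simp only [smul_eq_mul, mul_zero, sub_zero, sub_self, add_zero] at c
        show ext hK x (t + (n + 1) + 1) - z = 0
        have e : t + (n + 1) + 1 = t + n + 1 + 1 := by ring
        rw [e, c, sub_self]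
    have hxi : ∀ i : Fin K, x i = z := by
      intro i
      have hKt : ∀ m, u ((i : ℕ) + m * K) = u i := by
        intro m
        induction m with
        | zero => simp
        | succ m ih =>
          have : (i : ℕ) + (m + 1) * K = (i : ℕ) + m * K + K := by ring
          rw [this, hper, ih]
      have hge : t ≤ (i : ℕ) + t * K := by nlinarith
      obtain ⟨n, hn⟩ := Nat.exists_eq_add_of_le hge
      have h2 := (hall n).1
      rw [← hn, hKt] at h2
      simp only [hu] at h2
      rw [ext_of_lt hK x i i.2] at h2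
      linarith
    exact hne (by rw [hxi i0, hxi j0])
  -- three consecutive terms of the same sign are impossible
  have hpos3 : ∀ t, 1 ≤ t → 0 ≤ u (t - 1) → 0 ≤ u t → 0 ≤ u (t + 1) → False := by
    intro t ht h1 h2 h3
    have h4 := hpos t ht h2
    have h5 : 0 ≤ β * u (t - 1) := mul_nonneg hβ0.le h1
    exact hzero t (by linarith) (by linarith)
  have hneg3 : ∀ t, 1 ≤ t → u (t - 1) ≤ 0 → u t ≤ 0 → u (t + 1) ≤ 0 → False := by
    intro t ht h1 h2 h3
    have h4 := hneg t ht h2
    have h5 : β * u (t - 1) ≤ 0 := mul_nonpos_of_nonneg_of_nonpos hβ0.le h1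
    exact hzero t (by linarith) (by linarith)
  have hle : ∀ s t : ℕ, s < K → t < K → sigma K s < sigma K t → u s ≤ u t := by
    intro s t hs ht hst
    have := hord ⟨s, hs⟩ ⟨t, ht⟩ hst
    simp only [hu]
    rw [ext_of_lt hK x s hs, ext_of_lt hK x t ht]
    linarith
  have hK0 : u K = u 0 := by simpa using hper 0
  have hK1 : u (K + 1) = u 1 := by simpa [add_comm] using hper 1
  rcases Nat.lt_or_ge K 5 with hlt | hge
  · have hcases : K = 3 ∨ K = 4 := by omega
    rcases hcases with rfl | rfl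
    · -- K = 3
      have l01 : u 0 ≤ u 1 := hle 0 1 (by norm_num) (by norm_num) (by decide)
      have l12 : u 1 ≤ u 2 := hle 1 2 (by norm_num) (by norm_num) (by decide)
      have r3 : u 3 = u 0 := hK0
      have r4 : u 4 = u 1 := hK1
      by_cases h2 : u 2 ≤ 0
      · exact hneg3 1 le_rfl (by simp only [Nat.sub_self]; linarith) (by linarith) h2
      by_cases h0 : 0 ≤ u 0
      · exact hpos3 1 le_rfl (by simpa using h0) (by linarith) (by show 0 ≤ u 2; linarith)
      push Not at h2 h0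
      have e3 := hneg 3 (by norm_num) (by linarith)
      have e2 := hpos 2 (by norm_num) h2.le
      simp only [Nat.reduceAdd, Nat.reduceSub] at e3 e2
      rw [r4, r3] at e3
      rw [r3] at e2
      rcases le_total 0 (u 1) with h1 | h1
      · have e1 := hpos 1 le_rfl h1
        simp only [Nat.reduceAdd, Nat.reduceSub] at e1
        have b1 : β * u 2 ≤ u 2 := by nlinarith
        have b2 : u 0 ≤ β * u 0 := by nlinarith
        linarith
      · have b1 : β * u 2 ≤ u 2 := by nlinarith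
        have b2 : u 1 ≤ β * u 1 := by nlinarith
        linarith
    · -- K = 4
      have l01 : u 0 ≤ u 1 := hle 0 1 (by norm_num) (by norm_num) (by decide)
      have l13 : u 1 ≤ u 3 := hle 1 3 (by norm_num) (by norm_num) (by decide)
      have l32 : u 3 ≤ u 2 := hle 3 2 (by norm_num) (by norm_num) (by decide)
      have r4 : u 4 = u 0 := hK0
      have r5 : u 5 = u 1 := hK1
      by_cases h3 : u 3 ≤ 0
      · exact hneg3 4 (by norm_num) h3 (by linarith) (by show u 5 ≤ 0; linarith)
      by_cases h1 : 0 ≤ u 1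
      · exact hpos3 2 (by norm_num) h1 (by linarith) (by show 0 ≤ u 3; linarith)
      push Not at h3 h1
      have e4 := hneg 4 (by norm_num) (by linarith)
      have e2 := hpos 2 (by norm_num) (by linarith)
      simp only [Nat.reduceAdd, Nat.reduceSub] at e4 e2
      rw [r5, r4] at e4
      have b1 : β * u 3 ≤ u 3 := by nlinarith
      have b2 : u 1 ≤ β * u 1 := by nlinarith
      linarith
  · -- K ≥ 5
    have hs : ∀ t, 2 ≤ t → t < K → t ≠ K - 1 → sigma K (K - 1) < sigma K t := by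
      intro t h2 ht hne'
      simp only [sigma]
      split_ifs <;> omega
    by_cases h : u (K - 1) ≤ 0
    · have l1 : u 1 ≤ u (K - 1) := hle 1 (K - 1) (by omega) (by omega) (by
        simp only [sigma]
        split_ifs <;> omega)
      have l0 : u 0 ≤ u 1 := hle 0 1 (by omega) (by omega) (by
        simp only [sigma]
        split_ifs <;> omega)
      exact hneg3 K (by omega) h (by linarith) (by linarith)
    · push Not at h
      have hall : ∀ t, 2 ≤ t → t < K → 0 ≤ u t := by
        intro t h2 ht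
        by_cases hne' : t = K - 1
        · rw [hne']; exact h.le
        · exact h.le.trans (hle (K - 1) t (by omega) ht (hs t h2 ht hne'))
      exact hpos3 3 (by norm_num) (hall 2 le_rfl (by omega)) (hall 3 (by omega) (by omega))
        (hall 4 (by omega) (by omega))

end Pool.Agent.Results.MP_28939e_an.NoFixedOrdering

open Pool.Agent.Results.MP_28939e_an.NoFixedOrdering in
/-- For all `0 < μ ≤ L` some tuning in `Ω` admits no `σ_K`-ordered one-dimensional cycle of any
length, although it has a one-dimensional cycle with five distinct points. -/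
theorem Pool.Agent.Results.MP_28939e_an.NoFixedOrdering.result :
    ∀ μ L : ℝ, 0 < μ → μ ≤ L → ∃ γ β : ℝ, 0 < γ ∧ 0 < β ∧ β ≤ 1 ∧ (μ < L → β < 1) ∧
      (Real.goldenRatio / 2 < μ / L → γ < 2 * (1 + β) / L) ∧
      (γ, β) ∈ Omega μ L ∧
      (∃ x : Fin 5 → ℝ, Function.Injective x ∧ IsCycle μ L γ β x) ∧
      ∀ K : ℕ, 3 ≤ K → ∀ x : Fin K → ℝ, IsCycle μ L γ β x → ¬ IsSigmaOrdered x := by
  intro μ L hμ hL
  obtain ⟨hφ, hφ1, hφ2⟩ := phi_bounds
  set φ := Real.goldenRatio with hφdef
  have hLpos : 0 < L := hμ.trans_le hL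
  set β := max (μ / L) (4 / 5) with hβ
  have hβ45 : 4 / 5 ≤ β := le_max_right _ _
  have hβκ : μ / L ≤ β := le_max_left _ _
  have hκ1 : μ / L ≤ 1 := (div_le_one hLpos).mpr hL
  have hβ1 : β ≤ 1 := max_le hκ1 (by norm_num)
  have hβ0 : 0 < β := by linarith
  set γ := (2 + φ) * β / μ with hγ
  have hγ0 : 0 < γ := by positivity
  have hγμ : γ * μ = (2 + φ) * β := by rw [hγ]; field_simp
  have hγL : 2 + φ ≤ γ * L := by
    have h1 : μ ≤ β * L := (div_le_iff₀ hLpos).mp hβκ
    have h2 : γ * L = (2 + φ) * (β * L) / μ := by rw [hγ]; ring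
    rw [h2, le_div_iff₀ hμ]
    exact mul_le_mul_of_nonneg_left h1 (by linarith)
  have hcyc : IsCycle μ L γ β pts := cycle_five hμ hL hγ0 hβ1 hγμ.le hγL
  refine ⟨γ, β, hγ0, hβ0, hβ1, ?_, ?_, ?_, ⟨pts, ?_, hcyc⟩, ?_⟩
  · intro hlt
    exact max_lt ((div_lt_one hLpos).mpr hlt) (by norm_num)
  · intro hκ
    have hβe : β = μ / L := max_eq_left (by linarith)
    rw [lt_div_iff₀ hLpos]
    have h2 : γ * L = 2 + φ := by rw [hγ, hβe]; field_simp
    rw [h2, hβe]
    linarith
  · exact ⟨1, le_rfl, 5, by norm_num, _, cycle_transfer hcyc⟩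
  · intro i j hij
    have hs5 : 0 < 1 + √(5 : ℝ) := by positivity
    simp only [pts] at hij
    fin_cases i <;> fin_cases j <;> simp at hij ⊢ <;> linarith
  · intro K hK x hx
    exact no_ordered hμ hγ0 hβ0 hβ1 (by rw [hγμ]; nlinarith) hK hx
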